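import Pool.Agent.Lib.MP_2d002d_gt.PM.Interfaces

/-!
# MP_2d002d_gt, project PM: module COMP
-/

set_option autoImplicit false

open MeasureTheory Set Filter Topology
open scoped ENNReal

namespace Pool.Agent.Lib.MP_2d002d_gt.PM.H98

open Pool.Agent.Lib.MP_2d002d_gt.PM

lemma isOpen_Om (n : ℕ) (α β : ℝ) : IsOpen (Om n α β) := by
  have h : Om n α β = {p : ℝ × (Fin n → ℝ) | 0 < α + β * p.1} ∩
      ⋂ i, {p : ℝ × (Fin n → ℝ) | 0 < p.2 i} := by
    ext p
    simp [Om]
  rw [h]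
  refine (isOpen_lt continuous_const (by fun_prop)).inter ?_
  exact isOpen_iInter_of_finite fun i => isOpen_lt continuous_const (by fun_prop)

lemma bd_mul {f g : ℝ → ℝ} (hf : Bd f) (hg : Bd g) : Bd (fun z => f z * g z) := by
  obtain ⟨h1, C, hC⟩ := hf
  obtain ⟨h2, C', hC'⟩ := hg
  refine ⟨h1.mul h2, C * C', fun z hz => ?_⟩
  rw [abs_mul]
  exact mul_le_mul (hC z hz) (hC' z hz) (abs_nonneg _) ((abs_nonneg _).trans (hC z hz))

lemma bd_add {f g : ℝ → ℝ} (hf : Bd f) (hg : Bd g) : Bd (fun z => f z + g z) := by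
  obtain ⟨h1, C, hC⟩ := hf
  obtain ⟨h2, C', hC'⟩ := hg
  exact ⟨h1.add h2, C + C', fun z hz => (abs_add_le _ _).trans (add_le_add (hC z hz) (hC' z hz))⟩

lemma bd_const (c : ℝ) : Bd (fun _ => c) := ⟨continuousOn_const, |c|, fun _ _ => le_rfl⟩

lemma prof_mono {S : ℝ → ℝ} (hS : Prof S) : MonotoneOn S (Ici 0) := by
  refine monotoneOn_of_deriv_nonneg (convex_Ici 0) hS.smooth.continuous.continuousOn
    (hS.smooth.differentiable (by norm_num)).differentiableOn ?_
  intro z hz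
  rw [interior_Ici] at hz
  exact hS.d1 z hz.le

lemma bd_deriv {S : ℝ → ℝ} (hS : Prof S) : Bd (deriv S) := by
  obtain ⟨C, hC⟩ := hS.bdd
  exact ⟨(hS.smooth.continuous_deriv (by norm_num)).continuousOn, C, fun z hz => (hC z hz).2.1⟩

/-- composition with a profile -/
lemma bd_comp {S : ℝ → ℝ} (hS : Prof S) {f : ℝ → ℝ} (hf : ContinuousOn f (Ici (S 0))) :
    Bd (fun z => f (S z)) := by
  obtain ⟨C, hC⟩ := hS.bdd
  have hmono := prof_mono hS
  have h0 : ∀ z, 0 ≤ z → S 0 ≤ S z := fun z hz => hmono (mem_Ici.mpr le_rfl) hz hz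
  refine ⟨hf.comp hS.smooth.continuous.continuousOn fun z hz => h0 z hz, ?_⟩
  obtain ⟨B, hB⟩ := (isCompact_Icc (a := S 0) (b := C)).exists_bound_of_continuousOn
    (hf.mono Icc_subset_Ici_self)
  refine ⟨B, fun z hz => ?_⟩
  have h1 := (hC z hz).1
  exact hB (S z) ⟨h0 z hz, (le_abs_self _).trans h1⟩

/-- the wall as a function of the value of the profile -/
def qt {n : ℕ} (α β : ℝ) (i : Fin n) (p : ℝ × (Fin n → ℝ)) (t : ℝ) : ℝ × (Fin n → ℝ) :=
  (p.1, Function.update p.2 i ((α + β * p.1) * t))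

def dq {n : ℕ} (β : ℝ) (i : Fin n) (v : ℝ × (Fin n → ℝ)) (t : ℝ) : ℝ × (Fin n → ℝ) :=
  (v.1, Function.update v.2 i (β * v.1 * t))

lemma continuous_qt {n : ℕ} (α β : ℝ) (i : Fin n) (p : ℝ × (Fin n → ℝ)) :
    Continuous (qt α β i p) := by
  unfold qt
  exact continuous_const.prodMk (continuous_const.update i (by fun_prop))

lemma continuous_dq {n : ℕ} (β : ℝ) (i : Fin n) (v : ℝ × (Fin n → ℝ)) :
    Continuous (dq β i v) := by
  unfold dq
  exact continuous_const.prodMk (continuous_const.update i (by fun_prop))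

lemma qt_mem {n : ℕ} {α β : ℝ} {i : Fin n} {p : ℝ × (Fin n → ℝ)} (hp : p ∈ Om n α β) {t : ℝ}
    (ht : 0 < t) : qt α β i p t ∈ Om n α β := by
  refine ⟨hp.1, fun l => ?_⟩
  show 0 < Function.update p.2 i ((α + β * p.1) * t) l
  by_cases h : l = i
  · subst h
    rw [Function.update_self]
    exact mul_pos hp.1 ht
  · rw [Function.update_of_ne h]
    exact hp.2 l

lemma hasDerivAt_update {n : ℕ} (w : Fin n → ℝ) (i : Fin n) (f : ℝ → ℝ) (f' z : ℝ)
    (hf : HasDerivAt f f' z) :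
    HasDerivAt (fun z => Function.update w i (f z)) (f' • (Pi.single i (1 : ℝ) : Fin n → ℝ)) z := by
  rw [hasDerivAt_pi]
  intro l
  by_cases h : l = i
  · subst h
    simpa using hf
  · have h1 : (fun z => Function.update w i (f z) l) = fun _ => w l := by
      funext z
      exact Function.update_of_ne h _ _
    rw [h1]
    simp only [Pi.smul_apply, smul_eq_mul, Pi.single_eq_of_ne h, mul_zero]
    exact hasDerivAt_const z (w l)

lemma hasDerivAt_pt {n : ℕ} (α β : ℝ) (S : ℝ → ℝ) (i : Fin n) (p : ℝ × (Fin n → ℝ)) (z : ℝ)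
    (hS : HasDerivAt S (deriv S z) z) :
    HasDerivAt (pt α β S i p) (((α + β * p.1) * deriv S z) • ew i) z := by
  have h1 := hasDerivAt_update p.2 i (fun z => (α + β * p.1) * S z) _ z (hS.const_mul _)
  have h2 := (hasDerivAt_const z p.1).prodMk h1
  refine h2.congr_deriv ?_
  simp [ew]

lemma hasDerivAt_dr {n : ℕ} (β : ℝ) (S : ℝ → ℝ) (i : Fin n) (v : ℝ × (Fin n → ℝ)) (z : ℝ)
    (hS : HasDerivAt S (deriv S z) z) :
    HasDerivAt (dr β S i v) ((β * v.1 * deriv S z) • ew i) z := by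
  have h1 := hasDerivAt_update v.2 i (fun z => β * v.1 * S z) _ z (hS.const_mul _)
  have h2 := (hasDerivAt_const z v.1).prodMk h1
  refine h2.congr_deriv ?_
  simp [ew]

/-- module COMP -/
theorem comp : COMP_S := by
  intro n α β S i G hS hG p hp v
  have hO := isOpen_Om n α β
  have hS0 := hS.pos 0 le_rfl
  have hqm : ∀ t ∈ Ici (S 0), qt α β i p t ∈ Om n α β := fun t ht =>
    qt_mem hp (lt_of_lt_of_le hS0 ht)
  have hptm : ∀ z, 0 ≤ z → pt α β S i p z ∈ Om n α β := fun z hz => qt_mem hp (hS.pos z hz)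
  have hG1 : ContDiffOn ℝ 1 (fderiv ℝ G) (Om n α β) :=
    hG.fderiv_of_isOpen hO (by norm_num)
  have hc0 : ContinuousOn G (Om n α β) := hG.continuousOn
  have hc1 : ContinuousOn (fderiv ℝ G) (Om n α β) := hG1.continuousOn
  have hc2 : ContinuousOn (fderiv ℝ (fderiv ℝ G)) (Om n α β) :=
    hG1.continuousOn_fderiv_of_isOpen hO le_rfl
  have hq := (continuous_qt α β i p).continuousOn (s := Ici (S 0))
  have hd := (continuous_dq β i v).continuousOn (s := Ici (S 0))
  have k0 : ContinuousOn (fun t => G (qt α β i p t)) (Ici (S 0)) := hc0.comp hq hqm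
  have k1 : ContinuousOn (fun t => fderiv ℝ G (qt α β i p t)) (Ici (S 0)) := hc1.comp hq hqm
  have k2 : ContinuousOn (fun t => fderiv ℝ (fderiv ℝ G) (qt α β i p t)) (Ici (S 0)) :=
    hc2.comp hq hqm
  have b0 : Bd (fun z => G (pt α β S i p z)) := bd_comp hS k0
  have b1 : ∀ l, Bd (fun z => fderiv ℝ G (pt α β S i p z) (ew l)) := fun l =>
    bd_comp hS (f := fun t => fderiv ℝ G (qt α β i p t) (ew l))
      (k1.clm_apply continuousOn_const)
  have b1d : Bd (fun z => fderiv ℝ G (pt α β S i p z) (dr β S i v z)) :=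
    bd_comp hS (f := fun t => fderiv ℝ G (qt α β i p t) (dq β i v t)) (k1.clm_apply hd)
  have b2 : Bd (fun z => fderiv ℝ (fderiv ℝ G) (pt α β S i p z) (ew i) (ew i)) :=
    bd_comp hS (f := fun t => fderiv ℝ (fderiv ℝ G) (qt α β i p t) (ew i) (ew i))
      ((k2.clm_apply continuousOn_const).clm_apply continuousOn_const)
  have b2d : Bd (fun z => fderiv ℝ (fderiv ℝ G) (pt α β S i p z) (ew i) (dr β S i v z)) :=
    bd_comp hS (f := fun t => fderiv ℝ (fderiv ℝ G) (qt α β i p t) (ew i) (dq β i v t))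
      ((k2.clm_apply continuousOn_const).clm_apply hd)
  have b2dd : Bd (fun z => fderiv ℝ (fderiv ℝ G) (pt α β S i p z) (dr β S i v z)
      (dr β S i v z)) :=
    bd_comp hS (f := fun t => fderiv ℝ (fderiv ℝ G) (qt α β i p t) (dq β i v t) (dq β i v t))
      ((k2.clm_apply hd).clm_apply hd)
  have bS := bd_deriv hS
  have bS' : Bd (fun z => (α + β * p.1) * deriv S z) := bd_mul (bd_const _) bS
  have bS'' : Bd (fun z => β * v.1 * deriv S z) := bd_mul (bd_const _) bS
  have hSd : ∀ z, HasDerivAt S (deriv S z) z := fun z =>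
    (hS.smooth.differentiable (by norm_num) z).hasDerivAt
  have e1 : ∀ z, 0 < z → HasFDerivAt G (fderiv ℝ G (pt α β S i p z)) (pt α β S i p z) :=
    fun z hz => ((hG.differentiableOn (by norm_num)).differentiableAt
      (hO.mem_nhds (hptm z hz.le))).hasFDerivAt
  have e2 : ∀ z, 0 < z → HasFDerivAt (fderiv ℝ G) (fderiv ℝ (fderiv ℝ G) (pt α β S i p z))
      (pt α β S i p z) :=
    fun z hz => ((hG1.differentiableOn (by norm_num)).differentiableAt
      (hO.mem_nhds (hptm z hz.le))).hasFDerivAt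
  have e2' : ∀ z, 0 < z → HasDerivAt (fun z => fderiv ℝ G (pt α β S i p z))
      (fderiv ℝ (fderiv ℝ G) (pt α β S i p z) (((α + β * p.1) * deriv S z) • ew i)) z :=
    fun z hz => (e2 z hz).comp_hasDerivAt z (hasDerivAt_pt α β S i p z (hSd z))
  refine ⟨⟨b0, bd_mul (b1 i) bS', fun z hz => ?_⟩, ⟨b1 i, bd_mul b2 bS', fun z hz => ?_⟩,
    ⟨b1d, bd_add (bd_mul b2d bS') (bd_mul (b1 i) bS''), fun z hz => ?_⟩, b2dd, b2, b1⟩
  · have h1 := (e1 z hz).comp_hasDerivAt z (hasDerivAt_pt α β S i p z (hSd z))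
    refine h1.congr_deriv ?_
    rw [map_smul, smul_eq_mul, mul_comm]
  · have h1 := (e2' z hz).clm_apply (hasDerivAt_const z (ew i))
    refine h1.congr_deriv ?_
    simp only [map_smul, map_zero, add_zero, smul_apply, smul_eq_mul]
    ring
  · have h1 := (e2' z hz).clm_apply (hasDerivAt_dr β S i v z (hSd z))
    refine h1.congr_deriv ?_
    simp only [map_smul, smul_apply, smul_eq_mul]
    ring

end Pool.Agent.Lib.MP_2d002d_gt.PM.H98
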