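import Pool.Agent.Lib.MP_2d002d_gt.PM.H98.Comp

/-!
# MP_2d002d_gt, project PM: module KAPPA
-/

set_option autoImplicit false

open MeasureTheory Set Filter Topology
open scoped ENNReal

namespace Pool.Agent.Lib.MP_2d002d_gt.PM.H98

open Pool.Agent.Lib.MP_2d002d_gt.PM

/-! ### log-concavity -/

lemma logC_mul {E : Type*} [AddCommGroup E] [Module ℝ E] {F G : E → ℝ≥0∞} (hF : LogC F)
    (hG : LogC G) : LogC (fun x => F x * G x) := by
  intro t ht0 ht1 x y
  calc (F x * G x) ^ (1 - t) * (F y * G y) ^ t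
      = (F x ^ (1 - t) * F y ^ t) * (G x ^ (1 - t) * G y ^ t) := by
        rw [ENNReal.mul_rpow_of_nonneg _ _ (by linarith), ENNReal.mul_rpow_of_nonneg _ _ ht0.le]
        ring
    _ ≤ _ := mul_le_mul' (hF t ht0 ht1 x y) (hG t ht0 ht1 x y)

lemma logC_one {E : Type*} [AddCommGroup E] [Module ℝ E] : LogC (fun _ : E => (1 : ℝ≥0∞)) := by
  intro t _ _ x y
  simp

lemma logC_prod {E ι : Type*} [AddCommGroup E] [Module ℝ E] (s : Finset ι)
    {F : ι → E → ℝ≥0∞} (hF : ∀ i ∈ s, LogC (F i)) : LogC (fun x => ∏ i ∈ s, F i x) := by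
  classical
  induction s using Finset.induction_on with
  | empty =>
    simp only [Finset.prod_empty]
    exact logC_one
  | insert a s ha ih =>
    have h1 := logC_mul (hF a (Finset.mem_insert_self a s))
      (ih fun i hi => hF i (Finset.mem_insert_of_mem hi))
    have h2 : (fun x => ∏ i ∈ insert a s, F i x) = fun x => F a x * ∏ i ∈ s, F i x := by
      funext x
      exact Finset.prod_insert ha
    rw [h2]
    exact h1

lemma logC_comp {E E' : Type*} [AddCommGroup E] [Module ℝ E] [AddCommGroup E'] [Module ℝ E']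
    {F : E' → ℝ≥0∞} (hF : LogC F) (L : E →ₗ[ℝ] E') : LogC (fun x => F (L x)) := by
  intro t ht0 ht1 x y
  have := hF t ht0 ht1 (L x) (L y)
  rwa [← map_smul, ← map_smul, ← map_add] at this

lemma logC_wall (W : ℝ) : LogC (fun y : ℝ => if |y| ≤ W then (1 : ℝ≥0∞) else 0) := by
  intro t ht0 ht1 x y
  show (if |x| ≤ W then (1 : ℝ≥0∞) else 0) ^ (1 - t) * (if |y| ≤ W then (1 : ℝ≥0∞) else 0) ^ t ≤
    if |(1 - t) • x + t • y| ≤ W then 1 else 0
  by_cases hx : |x| ≤ W
  · by_cases hy : |y| ≤ W
    · have h : |(1 - t) • x + t • y| ≤ W := by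
        rw [smul_eq_mul, smul_eq_mul]
        calc |(1 - t) * x + t * y| ≤ |(1 - t) * x| + |t * y| := abs_add_le _ _
          _ = (1 - t) * |x| + t * |y| := by
              rw [abs_mul, abs_mul, abs_of_nonneg (by linarith : 0 ≤ 1 - t), abs_of_pos ht0]
          _ ≤ (1 - t) * W + t * W := by
              have := mul_le_mul_of_nonneg_left hx (by linarith : 0 ≤ 1 - t)
              have := mul_le_mul_of_nonneg_left hy ht0.le
              linarith
          _ = W := by ring
      rw [if_pos hx, if_pos hy, if_pos h]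
      simp
    · rw [if_neg hy, ENNReal.zero_rpow_of_pos ht0, mul_zero]
      exact zero_le
  · rw [if_neg hx, ENNReal.zero_rpow_of_pos (by linarith), zero_mul]
    exact zero_le

lemma logC_exp {n : ℕ} {U : ℝ × (Fin n → ℝ) → ℝ} (hU : Pot U) (s : ℝ) :
    LogC (fun x : Fin n → ℝ => ENNReal.ofReal (Real.exp (-U (s, x)))) := by
  intro t ht0 ht1 x y
  show ENNReal.ofReal (Real.exp (-U (s, x))) ^ (1 - t) *
    ENNReal.ofReal (Real.exp (-U (s, y))) ^ t ≤ _
  rw [ENNReal.ofReal_rpow_of_pos (Real.exp_pos _), ENNReal.ofReal_rpow_of_pos (Real.exp_pos _),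
    ← ENNReal.ofReal_mul (by positivity), ← Real.exp_mul, ← Real.exp_mul, ← Real.exp_add]
  refine ENNReal.ofReal_le_ofReal (Real.exp_le_exp.mpr ?_)
  have h1 := hU.convex.2 (mem_univ (s, x)) (mem_univ (s, y)) (by linarith : 0 ≤ 1 - t) ht0.le
    (by ring)
  have h2 : (1 - t) • ((s, x) : ℝ × (Fin n → ℝ)) + t • ((s, y) : ℝ × (Fin n → ℝ)) =
      (s, (1 - t) • x + t • y) := by
    ext i
    · simp; ring
    · simp
  rw [h2, smul_eq_mul, smul_eq_mul] at h1
  linarith

/-! ### the weights -/

variable {n : ℕ}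

lemma cw_measurable (hLY : LY_S) {S : Fin n → ℝ → ℝ} (hS : ∀ l, Prof (S l)) (α β : ℝ)
    (R : Finset (Fin n)) (p : ℝ × (Fin n → ℝ)) (l : Fin n) : Measurable (cw S α β R p l) := by
  unfold cw
  split_ifs
  · refine Measurable.ite ?_ measurable_const measurable_const
    exact measurableSet_le (by fun_prop) measurable_const
  · exact (hLY (S l) (hS l)).1.comp (measurable_id.div_const _)

lemma cw_even (hLY : LY_S) {S : Fin n → ℝ → ℝ} (hS : ∀ l, Prof (S l)) (α β : ℝ)
    (R : Finset (Fin n)) (p : ℝ × (Fin n → ℝ)) (l : Fin n) (y : ℝ) :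
    cw S α β R p l (-y) = cw S α β R p l y := by
  unfold cw
  split_ifs with h1 h2 h3 h3
  · rfl
  · rw [abs_neg] at h2; exact absurd h2 h3
  · rw [abs_neg] at h2; exact absurd h3 h2
  · rfl
  · rw [neg_div, (hLY (S l) (hS l)).2.1]

lemma cw_logC (hLY : LY_S) {S : Fin n → ℝ → ℝ} (hS : ∀ l, Prof (S l)) (α β : ℝ)
    (R : Finset (Fin n)) (p : ℝ × (Fin n → ℝ)) (l : Fin n) : LogC (cw S α β R p l) := by
  by_cases h : l ∈ R
  · have h1 : cw S α β R p l = fun y => if |y| ≤ p.2 l then (1 : ℝ≥0∞) else 0 := by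
      funext y
      unfold cw
      rw [if_pos h]
    rw [h1]
    exact logC_wall _
  · have h1 : cw S α β R p l = fun y => ly (S l)
        ((LinearMap.lsmul ℝ ℝ ((α + β * p.1)⁻¹)) y) := by
      funext y
      unfold cw
      rw [if_neg h]
      simp [div_eq_inv_mul]
    rw [h1]
    exact logC_comp (hLY (S l) (hS l)).2.2.1 _

/-- the integrand without the wall `i` -/
noncomputable def Fi (U : ℝ × (Fin n → ℝ) → ℝ) (S : Fin n → ℝ → ℝ) (α β : ℝ)
    (R : Finset (Fin n)) (i : Fin n) (p : ℝ × (Fin n → ℝ)) (x : Fin n → ℝ) : ℝ≥0∞ :=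
  (∏ l ∈ Finset.univ.erase i, cw S α β R p l (x l)) * ENNReal.ofReal (Real.exp (-U (p.1, x)))

lemma Fi_measurable (hLY : LY_S) {U : ℝ × (Fin n → ℝ) → ℝ} (hU : Pot U) {S : Fin n → ℝ → ℝ}
    (hS : ∀ l, Prof (S l)) (α β : ℝ) (R : Finset (Fin n)) (i : Fin n) (p : ℝ × (Fin n → ℝ)) :
    Measurable (Fi U S α β R i p) := by
  unfold Fi
  refine Measurable.mul ?_ ?_
  · exact Finset.measurable_prod _ fun l _ =>
      (cw_measurable hLY hS α β R p l).comp (measurable_pi_apply l)
  · have hc : Continuous fun x : Fin n → ℝ => U (p.1, x) :=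
      hU.smooth.continuous.comp (Continuous.prodMk_right p.1)
    exact (Real.continuous_exp.comp hc.neg).measurable.ennreal_ofReal

lemma Fi_even (hLY : LY_S) {U : ℝ × (Fin n → ℝ) → ℝ} (hU : Pot U) {S : Fin n → ℝ → ℝ}
    (hS : ∀ l, Prof (S l)) (α β : ℝ) (R : Finset (Fin n)) (i : Fin n) (p : ℝ × (Fin n → ℝ))
    (x : Fin n → ℝ) : Fi U S α β R i p (-x) = Fi U S α β R i p x := by
  unfold Fi
  rw [hU.even]
  congr 1
  exact Finset.prod_congr rfl fun l _ => cw_even hLY hS α β R p l (x l)

lemma Fi_logC (hLY : LY_S) {U : ℝ × (Fin n → ℝ) → ℝ} (hU : Pot U) {S : Fin n → ℝ → ℝ}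
    (hS : ∀ l, Prof (S l)) (α β : ℝ) (R : Finset (Fin n)) (i : Fin n) (p : ℝ × (Fin n → ℝ)) :
    LogC (Fi U S α β R i p) := by
  unfold Fi
  refine logC_mul (logC_prod _ fun l _ => ?_) (logC_exp hU p.1)
  exact logC_comp (cw_logC hLY hS α β R p l) (LinearMap.proj l : (Fin n → ℝ) →ₗ[ℝ] ℝ)

lemma HE_update {U : ℝ × (Fin n → ℝ) → ℝ} {S : Fin n → ℝ → ℝ} (α β : ℝ)
    {R : Finset (Fin n)} {i : Fin n} (hi : i ∈ R) (p : ℝ × (Fin n → ℝ)) (x : ℝ) :
    HE U S α β R (p.1, Function.update p.2 i x) =
      ∫⁻ y : Fin n → ℝ, (if |y i| ≤ x then (1 : ℝ≥0∞) else 0) * Fi U S α β R i p y := by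
  unfold HE Fi
  refine lintegral_congr fun y => ?_
  rw [← Finset.mul_prod_erase Finset.univ _ (Finset.mem_univ i), mul_assoc]
  congr 1
  · unfold cw
    rw [if_pos hi]
    simp
  · congr 1
    refine Finset.prod_congr rfl fun l hl => ?_
    have hli : l ≠ i := Finset.ne_of_mem_erase hl
    unfold cw
    simp only [Function.update_of_ne hli]

/-- module KAPPA -/
theorem kappa (hK1 : K1_S) (hMARG : MARG_S) (hLY : LY_S) (hFIN : FIN_S) : KAPPA_S := by
  intro n U S α β R i hU hS hi hcd p hp
  have hO := isOpen_Om n α β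
  obtain ⟨k, hkm, hke, hkl, hkg⟩ := hMARG n (Fi U S α β R i p) i
    (Fi_measurable hLY hU hS α β R i p) (Fi_logC hLY hU hS α β R i p)
    (Fi_even hLY hU hS α β R i p)
  set H := HR U S α β R with hH
  let c : ℝ → ℝ × (Fin n → ℝ) := fun x => (p.1, Function.update p.2 i x)
  have hcm : ∀ x, 0 < x → c x ∈ Om n α β := by
    intro x hx
    refine ⟨hp.1, fun l => ?_⟩
    show 0 < Function.update p.2 i x l
    by_cases h : l = i
    · subst h
      rwa [Function.update_self]
    · rw [Function.update_of_ne h]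
      exact hp.2 l
  have hfin : ∀ x, 0 < x → HE U S α β R (c x) ≠ ∞ ∧ HE U S α β R (c x) ≠ 0 := fun x hx =>
    hFIN n U S α β R hU hS _ (hcm x hx)
  have hHE : ∀ x, HE U S α β R (c x) = ∫⁻ a in Icc (-x) x, k a := by
    intro x
    have h1 := hkg (fun a => if |a| ≤ x then (1 : ℝ≥0∞) else 0)
      (Measurable.ite (measurableSet_le (by fun_prop) measurable_const) measurable_const
        measurable_const)
    show HE U S α β R (p.1, Function.update p.2 i x) = _
    rw [HE_update α β hi p x, h1, ← lintegral_indicator measurableSet_Icc]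
    refine lintegral_congr fun a => ?_
    by_cases h : |a| ≤ x
    · rw [if_pos h, one_mul, indicator_of_mem]
      exact abs_le.mp h
    · rw [if_neg h, zero_mul, indicator_of_notMem]
      exact fun h' => h (abs_le.mpr h')
  have hΦ : ∀ x, 0 < x → ∫⁻ a in Icc (-x) x, k a = ENNReal.ofReal (H (c x)) := by
    intro x hx
    rw [← hHE, hH]
    unfold HR
    rw [ENNReal.ofReal_toReal (hfin x hx).1]
  have hpos : ∀ x, 0 < x → 0 < H (c x) := fun x hx =>
    ENNReal.toReal_pos (hfin x hx).2 (hfin x hx).1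
  -- strict monotonicity
  have hr : 0 < α + β * p.1 := hp.1
  have hstrict : ∀ x y, 0 < x → x < y → H (c x) < H (c y) := by
    intro x y hx hxy
    have h1 : HE U S α β R (c y) = HE U S α β R (c x) +
        ∫⁻ z : Fin n → ℝ, (if x < |z i| ∧ |z i| ≤ y then (1 : ℝ≥0∞) else 0) *
          Fi U S α β R i p z := by
      show HE U S α β R (p.1, Function.update p.2 i y) =
        HE U S α β R (p.1, Function.update p.2 i x) + _
      rw [HE_update α β hi p y, HE_update α β hi p x, ← lintegral_add_left]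
      · refine lintegral_congr fun z => ?_
        rw [← add_mul]
        congr 1
        by_cases h : |z i| ≤ x
        · rw [if_pos (h.trans hxy.le), if_pos h, if_neg (fun h' => absurd h (not_le.mpr h'.1)),
            add_zero]
        · by_cases h' : |z i| ≤ y
          · rw [if_pos h', if_neg h, if_pos ⟨not_le.mp h, h'⟩, zero_add]
          · rw [if_neg h', if_neg h, if_neg (fun h'' => h' h''.2), zero_add]
      · refine Measurable.mul ?_ (Fi_measurable hLY hU hS α β R i p)
        have hab : Measurable fun z : Fin n → ℝ => |z i| :=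
          (measurable_pi_apply i).abs
        exact Measurable.ite (measurableSet_le hab measurable_const) measurable_const
          measurable_const
    have h2 : 0 < ∫⁻ z : Fin n → ℝ, (if x < |z i| ∧ |z i| ≤ y then (1 : ℝ≥0∞) else 0) *
          Fi U S α β R i p z := by
      have hmeas : Measurable fun z : Fin n → ℝ =>
          (if x < |z i| ∧ |z i| ≤ y then (1 : ℝ≥0∞) else 0) * Fi U S α β R i p z := by
        refine Measurable.mul ?_ (Fi_measurable hLY hU hS α β R i p)
        refine Measurable.ite ?_ measurable_const measurable_const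
        have hab : Measurable fun z : Fin n → ℝ => |z i| :=
          (measurable_pi_apply i).abs
        exact (measurableSet_lt measurable_const hab).inter
          (measurableSet_le hab measurable_const)
      rw [lintegral_pos_iff_support hmeas]
      -- an open box
      let ρ : Fin n → ℝ := fun l => min (p.2 l) ((α + β * p.1) * S l 0)
      have hρ : ∀ l, 0 < ρ l := fun l =>
        lt_min (hp.2 l) (mul_pos hr ((hS l).pos 0 le_rfl))
      let B : Set (Fin n → ℝ) := Set.pi univ fun l => if l = i then Ioo x y else Ioo (-ρ l) (ρ l)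
      have hBo : IsOpen B := by
        refine isOpen_set_pi finite_univ fun l _ => ?_
        split_ifs
        · exact isOpen_Ioo
        · exact isOpen_Ioo
      have hBne : B.Nonempty := by
        refine ⟨fun l => if l = i then (x + y) / 2 else 0, fun l _ => ?_⟩
        by_cases h : l = i
        · simp only [h, if_true]
          exact ⟨by linarith, by linarith⟩
        · simp only [h, if_false]
          exact ⟨by linarith [hρ l], hρ l⟩
      refine lt_of_lt_of_le (hBo.measure_pos volume hBne) (measure_mono ?_)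
      intro z hz
      rw [Function.mem_support]
      have hzi : z i ∈ Ioo x y := by simpa using hz i (mem_univ i)
      have h3 : x < |z i| ∧ |z i| ≤ y := by
        rw [abs_of_pos (hx.trans hzi.1)]
        exact ⟨hzi.1, hzi.2.le⟩
      rw [if_pos h3, one_mul]
      unfold Fi
      refine mul_ne_zero ?_ (ENNReal.ofReal_ne_zero_iff.mpr (Real.exp_pos _))
      rw [Finset.prod_ne_zero_iff]
      intro l hl
      have hli : l ≠ i := Finset.ne_of_mem_erase hl
      have hzl : z l ∈ Ioo (-ρ l) (ρ l) := by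
        have h9 := hz l (mem_univ l)
        simp only [if_neg hli] at h9
        exact h9
      have hzl' : |z l| ≤ ρ l := abs_le.mpr ⟨hzl.1.le, hzl.2.le⟩
      unfold cw
      split_ifs with h4 h5
      · exact one_ne_zero
      · exact absurd (hzl'.trans (min_le_left _ _)) h5
      · rw [(hLY (S l) (hS l)).2.2.2.2.1]
        · exact one_ne_zero
        · rw [abs_div, abs_of_pos hr, div_le_iff₀ hr]
          have := hzl'.trans (min_le_right _ _)
          linarith
    have h3 : HE U S α β R (c x) < HE U S α β R (c y) := by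
      rw [h1]
      exact ENNReal.lt_add_right (hfin x hx).1 h2.ne'
    exact (ENNReal.toReal_lt_toReal (hfin x hx).1 (hfin y (hx.trans hxy)).1).mpr h3
  -- derivatives
  have hcderiv : ∀ x, HasDerivAt c (ew i) x := by
    intro x
    have h2 := hasDerivAt_update p.2 i (fun x : ℝ => x) 1 x (hasDerivAt_id _)
    have h3 := (hasDerivAt_const x p.1).prodMk h2
    refine h3.congr_deriv ?_
    simp [ew]
  have hG1 : ContDiffOn ℝ 1 (fderiv ℝ H) (Om n α β) := hcd.fderiv_of_isOpen hO (by norm_num)
  have hd1 : ∀ x, 0 < x → HasDerivAt (fun x => H (c x)) (fderiv ℝ H (c x) (ew i)) x :=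
    fun x hx => (((hcd.differentiableOn (by norm_num)).differentiableAt
      (hO.mem_nhds (hcm x hx))).hasFDerivAt).comp_hasDerivAt x (hcderiv x)
  have hd2 : ∀ x, 0 < x → HasDerivAt (fun x => fderiv ℝ H (c x) (ew i))
      (fderiv ℝ (fderiv ℝ H) (c x) (ew i) (ew i)) x := by
    intro x hx
    have h1 := (((hG1.differentiableOn (by norm_num)).differentiableAt
      (hO.mem_nhds (hcm x hx))).hasFDerivAt).comp_hasDerivAt x (hcderiv x)
    have h2 := h1.clm_apply (hasDerivAt_const x (ew i))
    refine h2.congr_deriv ?_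
    simp
  have hfinal := hK1 k (fun x => H (c x)) (fun x => fderiv ℝ H (c x) (ew i))
    (fun x => fderiv ℝ (fderiv ℝ H) (c x) (ew i) (ew i)) hkm hke hkl hΦ hpos hstrict hd1 hd2
    (p.2 i) (hp.2 i)
  have hcp : c (p.2 i) = p := by
    show (p.1, Function.update p.2 i (p.2 i)) = p
    rw [Function.update_eq_self]
  simp only [hcp] at hfinal
  exact hfinal

end Pool.Agent.Lib.MP_2d002d_gt.PM.H98
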